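import Pool.Agent.H84.ND.Targets2
import Pool.Agent.H84.SM.All

/-!
# MP_70ba79_ag: contact at the smooth points where `A` does not vanish (row LBP of `ndc_modules`)

Copy of `Pool/Agent/H73/SM/LCB.lean` for irreducible curves at a smooth point.
-/

set_option autoImplicit false

namespace Pool.Agent.H59.ND

open MvPolynomial SC Pool.Agent.H27.LV Pool.Agent.H84.SM Pool.Agent.H84.ND
open Pool.Agent.H73.SM hiding core pf_LCB
open Pool.Agent.H92.OD (HS cf sg uu Lat geO IsO DF DD)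

section Main

/-- LBP in a frame -/
theorem corp (hBRG : T_BRG) (hRAM : T_RAM) (hBAP : T_BAP) (hAFE : T_AFE) (hCRE : T_CRE)
    (hCEN : T_CEN) (k : Type) [Field k] [IsAlgClosed k] [CharZero k]
    (G : MvPolynomial (Fin 3) k) (d α : ℕ) (A : MvPolynomial (Fin 3) k) (b : A2 k)
    (hI : Ird G d) (hC : Conn G α A b) (hα : α < d) (s : Fin 3 → k)
    (hs : s ≠ 0) (hGs : eval s G = 0) (hAs : eval s A ≠ 0) (K : Type) [Field K] [Algebra k K]
    [Algebra.EssFiniteType k K] (htr : Algebra.trdeg k K = 1) (D : Derivation k K K) (hD : D ≠ 0)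
    (x : Fin 3 → K) (v : DV k K) (hone : ∃ j, x j = 1) (hP : Prim k x)
    (hGx : aeval x G ≠ 0) (hE : CEq D A b x) (z : K) (hz : z ≠ 0)
    (hzs : ∀ i, ge v 1 (z * x i - algebraMap k K (s i))) (u1 u2 : Fin 3 → k)
    (hdt : dt s u1 u2 ≠ 0) (hg : dp (gr G s) u2 ≠ 0) (l0 l1 l2 : K)
    (hx : ∀ i, x i = l0 * algebraMap k K (s i) + l1 * algebraMap k K (u1 i) +
      l2 * algebraMap k K (u2 i)) (hl0 : ge v 1 (z * l0 - 1)) (hl1 : ge v 1 (z * l1))
    (hl10 : l1 ≠ 0) (hl20 : l2 ≠ 0) (hle : v.ord l1 ≤ v.ord l2) : nord v x d G ≤ 1 := by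
  -- the unit `z l0`
  have hu : z * l0 ≠ 0 ∧ v.ord (z * l0) = 0 := by
    have h := v.ord_add_eq_left (x := (1 : K)) (y := z * l0 - 1) one_ne_zero (fun h => by
      rw [v.ord_one]
      have := hl0.resolve_left h
      omega)
    rw [v.ord_one, add_sub_cancel] at h
    exact h
  have hl00 : l0 ≠ 0 := right_ne_zero_of_mul hu.1
  have hvl0 : v.ord z + v.ord l0 = 0 := by rw [← v.ord_mul' hz hl00]; exact hu.2
  have hvl1 : 1 ≤ v.ord z + v.ord l1 := by
    rw [← v.ord_mul' hz hl10]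
    exact hl1.resolve_left (mul_ne_zero hz hl10)
  obtain ⟨X, hXdef⟩ : ∃ X, X = l1 / l0 := ⟨_, rfl⟩
  obtain ⟨Y, hYdef⟩ : ∃ Y, Y = l2 / l0 := ⟨_, rfl⟩
  have hX0 : X ≠ 0 := by rw [hXdef]; exact div_ne_zero hl10 hl00
  have hY0 : Y ≠ 0 := by rw [hYdef]; exact div_ne_zero hl20 hl00
  have hvX : v.ord X = v.ord l1 - v.ord l0 := by rw [hXdef, v.ord_div hl10 hl00]
  have hvY : v.ord Y = v.ord l2 - v.ord l0 := by rw [hYdef, v.ord_div hl20 hl00]
  have hxpa : ∀ i, x i = l0 * pa s u1 u2 X Y i := by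
    intro i
    rw [hx i, hXdef, hYdef]
    unfold pa
    field_simp
  obtain ⟨n, hn⟩ : ∃ n : ℕ, (n : ℤ) = v.ord X := ⟨(v.ord X).toNat, by omega⟩
  have hn1 : 0 < n := by omega
  -- the derivation
  have hDX : D X ≠ 0 := by
    intro h
    obtain ⟨c, hc⟩ := ker k K htr D hD X h
    have := v.ord_base c
    rw [hc] at this
    omega
  have hDX1 : ((X / D X) • D) X = X := by
    rw [Derivation.smul_apply, smul_eq_mul, div_mul_cancel₀ _ hDX]
  obtain ⟨Ph, hPX, hPL, hPO, hPD⟩ := hBRG k K htr v X n hn1 hn.symm ((X / D X) • D) hDX1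
  have hsol := core_sol hAFE hCRE D α A b s u1 u2 x l0 X Y (X / D X) hC.hA hC.hb hC.inv hl00 hX0
    hDX1 hxpa hE Ph hPX hPD
  obtain ⟨φ, a, hBas, ha0, -, hord⟩ := hBAP k G d α A b hI hC hα s u1 u2 hdt hGs hg
  have ha : a = 0 := ha0 hAs
  subst ha
  obtain ⟨N, -, hN, hram⟩ := hRAM k _ _ φ 0 hBas
  have hN1 := hN rfl
  subst hN1
  have hnq : (0 : ℚ) < n := by exact_mod_cast hn1
  -- the difference
  obtain ⟨U, hU⟩ : ∃ U, U = Ph Y - φ := ⟨_, rfl⟩
  have hφU : φ + U = Ph Y := by rw [hU]; ring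
  have hyO := hPO Y hY0
  have hY1 : geO 1 (Ph Y) := by
    refine Pool.Agent.H92.OD.geO_mono hyO.2 ?_
    rw [le_div_iff₀ hnq, one_mul]
    exact_mod_cast (by omega : (n : ℤ) ≤ v.ord Y)
  have hU1 : geO 1 U := by
    rw [hU]
    exact Pool.Agent.H92.OD.geO_sub hY1 hBas.pos
  have hLn : ∀ w : HS k, Lat 1 w → Lat n w := by
    intro w hw r hr
    obtain ⟨m, hm⟩ := hw r hr
    refine ⟨m * n, ?_⟩
    rw [Nat.cast_one, mul_one] at hm
    rw [hm]
    push_cast
    ring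
  have hUL : ∃ n : ℕ, 0 < n ∧ Lat n U := ⟨n, hn1, by
    rw [hU]
    exact lat_sub (hPL Y) (hLn φ hBas.lat)⟩
  obtain ⟨hL1, hle1⟩ := hram U ⟨hU1, 1, by norm_num, hU1⟩ hUL (by rw [hφU]; exact hsol)
  -- all elements have integral exponents
  have hLY : Lat 1 (Ph Y) := by rw [← hφU]; exact lat_add hBas.lat hL1
  have hLpa : ∀ i, Lat 1 (Ph (pa s u1 u2 X Y i)) := by
    intro i
    unfold pa
    rw [map_add, map_add, map_mul, map_mul, hPX, AlgHom.commutes, AlgHom.commutes,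
      AlgHom.commutes]
    exact lat_add (lat_add (lat_const 1 _) (lat_mul (lat_uu 1) (lat_const 1 _)))
      (lat_mul hLY (lat_const 1 _))
  have hLl0 : Lat 1 (Ph l0) := by
    obtain ⟨j, hj⟩ := hone
    have h1 := hxpa j
    rw [hj] at h1
    have h2 : l0 = (pa s u1 u2 X Y j)⁻¹ := eq_inv_of_mul_eq_one_left h1.symm
    rw [h2, map_inv₀]
    exact lat_inv (hLpa j)
  have hLall : ∀ w : K, Lat 1 (Ph w) := by
    intro w
    have hw : w ∈ IntermediateField.adjoin k (Set.range x) := by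
      rw [hP]
      exact IntermediateField.mem_top
    induction hw using IntermediateField.adjoin_induction with
    | mem w hw =>
      obtain ⟨i, rfl⟩ := hw
      rw [hxpa i, map_mul]
      exact lat_mul hLl0 (hLpa i)
    | algebraMap c =>
      rw [AlgHom.commutes]
      exact lat_const 1 c
    | add w w' _ _ h1 h2 => rw [map_add]; exact lat_add h1 h2
    | mul w w' _ _ h1 h2 => rw [map_mul]; exact lat_mul h1 h2
    | inv w _ h1 => rw [map_inv₀]; exact lat_inv h1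
  have hn_one : n = 1 := by
    have h1 := hPO v.unif v.unif_ne_zero
    rw [v.ord_unif] at h1
    obtain ⟨m, hm⟩ := hLall v.unif _ h1.1
    have h2 : (1 : ℚ) = m * n := by
      rw [← hm]
      field_simp
      norm_num
    have h3 : (1 : ℤ) = m * n := by exact_mod_cast h2
    have h4 : (n : ℤ) ∣ 1 := ⟨m, by rw [h3]; ring⟩
    have h5 := Int.le_of_dvd one_pos h4
    omega
  subst hn_one
  -- the order of `G`
  obtain ⟨g, hgdef⟩ : ∃ g, g = aeval (pa s u1 u2 X Y) G := ⟨_, rfl⟩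
  have hxg : aeval x G = l0 ^ d * g := by
    rw [hgdef, ← aeval_homR hI.hom]
    congr 1
    exact congrArg aeval (funext hxpa)
  have hg0 : g ≠ 0 := fun h => hGx (by rw [hxg, h, mul_zero])
  have hnord : nord v x d G = v.ord g := by
    have h1 := ((hCEN k K htr v x hone).2 s hs z hz hzs).2 d G hI.hom hGx
    rw [h1.1]
    have h2 : (fun i => z * x i) = fun i => (z * l0) * pa s u1 u2 X Y i := by
      funext i
      rw [hxpa i, mul_assoc]
    rw [h2, aeval_homR hI.hom, ← hgdef, v.ord_mul' (pow_ne_zero _ hu.1) hg0, v.ord_pow, hu.2]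
    ring
  rw [hnord]
  have hPg : Ph g = aeval ![uu k, φ + U] (gU G s u1 u2) := by
    rw [hφU, hgdef, ← aeval_gU, ← AlgHom.comp_apply]
    congr 1
    refine MvPolynomial.algHom_ext fun i => ?_
    rw [AlgHom.comp_apply, aeval_X, aeval_X]
    fin_cases i
    · exact hPX
    · rfl
  have hgO := hPO g hg0
  rw [hPg, Nat.cast_one, div_one] at hgO
  by_cases hU0 : U = 0
  · exfalso
    obtain ⟨m, hm⟩ : ∃ m : ℕ, v.ord g < (m : ℤ) ∧ 0 < m :=
      ⟨(v.ord g).toNat + 1, by omega, by omega⟩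
    have hmq : (0 : ℚ) < m := by exact_mod_cast hm.2
    have h1 : IsO (sg (m : ℚ) (1 : k)) (m : ℚ) :=
      ⟨by rw [Pool.Agent.H92.OD.cf_sg, if_pos rfl]; exact one_ne_zero,
        Pool.Agent.H92.OD.geO_sg _ 1⟩
    have h2 := hord _ _ hmq h1
    have h3 := geO_diff (m := (m : ℚ)) hmq.le
      (Pool.Agent.H92.OD.geO_mono hBas.pos (by norm_num)) h1.2 (gU G s u1 u2)
    have h4 : geO (m : ℚ) (aeval ![uu k, φ] (gU G s u1 u2)) := by
      have h5 := Pool.Agent.H92.OD.geO_sub h2.2 h3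
      rw [sub_sub_cancel] at h5
      exact h5
    rw [hU0, add_zero] at hgO
    exact hgO.1 (h4 _ (by exact_mod_cast hm.1))
  · obtain ⟨μ, hμ⟩ := Pool.Agent.H92.OD.exists_IsO hU0
    have hμ0 : 0 < μ := by
      by_contra hcon
      exact hμ.1 (hU1 μ (by linarith [not_lt.1 hcon]))
    have h1 := (hord U μ hμ0 hμ).unique hgO
    have h2 := hle1 μ hμ
    rw [h1] at h2
    have h3 : ((v.ord g : ℤ) : ℚ) ≤ ((1 : ℤ) : ℚ) := by simpa using h2
    exact_mod_cast h3

theorem lbp_aux (hBRG : T_BRG) (hRAM : T_RAM) (hBAP : T_BAP) (hAFE : T_AFE) (hCRE : T_CRE)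
    (hCEN : T_CEN) : T_LBP := by
  intro k _ _ _ G d α A b hI hC hα s hs hGs hns hAs K _ _ _ htr D hD x v hone hP hNL hGx hAx
    hE hCn
  obtain ⟨z, hz, hzs⟩ := hCn
  obtain ⟨g, hgdef⟩ : ∃ g, g = gr G s := ⟨_, rfl⟩
  have hgi : ∀ i, g i = eval s (pderiv i G) := by
    intro i
    rw [hgdef]
    unfold gr
    rw [← coe_aeval_eq_eval]
    rfl
  obtain ⟨j, hj⟩ : ∃ j, g j ≠ 0 := by
    by_contra hcon
    push Not at hcon
    exact hns ⟨hs, fun i => by rw [← hgi]; exact hcon i⟩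
  obtain ⟨i, hi⟩ : ∃ i, s i ≠ 0 := by
    by_contra hcon
    push Not at hcon
    exact hs (funext hcon)
  have hgs : dp g s = 0 := by
    have h := congrArg (eval s) hI.hom.sum_X_mul_pderiv
    rw [map_sum, map_nsmul, hGs, smul_zero] at h
    unfold dp
    rw [← h]
    refine Finset.sum_congr rfl fun i _ => ?_
    rw [map_mul, eval_X, hgi, mul_comm]
  obtain ⟨u2, hu2⟩ : ∃ u2 : Fin 3 → k, u2 = Pi.single j 1 := ⟨_, rfl⟩
  obtain ⟨w, hw⟩ : ∃ w : Fin 3 → k, w = Pi.single i 1 := ⟨_, rfl⟩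
  have hgu2 : dp g u2 = g j := by
    rw [hu2]
    unfold dp
    simp [Pi.single_apply]
  have hsw : dp s w = s i := by
    rw [hw]
    unfold dp
    simp [Pi.single_apply]
  obtain ⟨u1, hu1⟩ : ∃ u1, u1 = cr g w := ⟨_, rfl⟩
  have hgu1 : dp g u1 = 0 := by
    rw [hu1, dp3, cr0, cr1, cr2]
    ring
  have hΔ : dt s u1 u2 = dp g u2 * dp s w - dp g s * dp w u2 := by
    rw [hu1, dt3, cr0, cr1, cr2, dp3, dp3, dp3, dp3]
    ring
  have hΔ0 : dt s u1 u2 ≠ 0 := by
    rw [hΔ, hgs, zero_mul, sub_zero, hgu2, hsw]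
    exact mul_ne_zero hj hi
  -- coordinates
  obtain ⟨δ, hδ⟩ : ∃ δ, δ = (dt s u1 u2)⁻¹ := ⟨_, rfl⟩
  have hδ1 : δ * dt s u1 u2 = 1 := by rw [hδ]; exact inv_mul_cancel₀ hΔ0
  obtain ⟨a0, ha0⟩ : ∃ a0 : Fin 3 → k, a0 = fun i => δ * cr u1 u2 i := ⟨_, rfl⟩
  obtain ⟨a1, ha1⟩ : ∃ a1 : Fin 3 → k, a1 = fun i => δ * cr u2 s i := ⟨_, rfl⟩
  obtain ⟨a2, ha2⟩ : ∃ a2 : Fin 3 → k, a2 = fun i => δ * cr s u1 i := ⟨_, rfl⟩
  have h00 : dp a0 s = 1 := by
    rw [← hδ1, ha0, dp3, dt3, cr0, cr1, cr2]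
    ring
  have h10 : dp a1 s = 0 := by
    rw [ha1, dp3, cr0, cr1, cr2]
    ring
  have h20 : dp a2 s = 0 := by
    rw [ha2, dp3, cr0, cr1, cr2]
    ring
  have h11 : dp a1 u1 = 1 := by
    rw [← hδ1, ha1, dp3, dt3, cr0, cr1, cr2]
    ring
  have h22 : dp a2 u2 = 1 := by
    rw [← hδ1, ha2, dp3, dt3, cr0, cr1, cr2]
    ring
  have hne : ∀ a u : Fin 3 → k, dp a u = 1 → a ≠ 0 := by
    intro a u h h0
    rw [h0, dp3] at h
    simp at h
  have hxc : ∀ i, x i = lf a0 x * algebraMap k K (s i) + lf a1 x * algebraMap k K (u1 i) +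
      lf a2 x * algebraMap k K (u2 i) := by
    intro i
    have h1 := cramer (fun i => algebraMap k K (s i)) (fun i => algebraMap k K (u1 i))
      (fun i => algebraMap k K (u2 i)) x i
    have e0 : lf a0 x = algebraMap k K δ *
        dp (cr (fun i => algebraMap k K (u1 i)) fun i => algebraMap k K (u2 i)) x := by
      unfold lf
      rw [ha0, Fin.sum_univ_three, dp3, cr0, cr1, cr2]
      simp only [cr0, cr1, cr2, map_mul, map_sub]
      ring
    have e1 : lf a1 x = algebraMap k K δ *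
        dp (cr (fun i => algebraMap k K (u2 i)) fun i => algebraMap k K (s i)) x := by
      unfold lf
      rw [ha1, Fin.sum_univ_three, dp3, cr0, cr1, cr2]
      simp only [cr0, cr1, cr2, map_mul, map_sub]
      ring
    have e2 : lf a2 x = algebraMap k K δ *
        dp (cr (fun i => algebraMap k K (s i)) fun i => algebraMap k K (u1 i)) x := by
      unfold lf
      rw [ha2, Fin.sum_univ_three, dp3, cr0, cr1, cr2]
      simp only [cr0, cr1, cr2, map_mul, map_sub]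
      ring
    have e3 : dt (fun i => algebraMap k K (s i)) (fun i => algebraMap k K (u1 i))
        (fun i => algebraMap k K (u2 i)) = algebraMap k K (dt s u1 u2) := by
      rw [dt3, dt3]
      simp only [map_mul, map_sub, map_add]
    have e4 : algebraMap k K δ * algebraMap k K (dt s u1 u2) = 1 := by
      rw [← map_mul, hδ1, map_one]
    rw [e3] at h1
    rw [e0, e1, e2]
    calc x i = algebraMap k K δ * (algebraMap k K (dt s u1 u2) * x i) := by
          rw [← mul_assoc, e4, one_mul]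
      _ = _ := by rw [h1]; ring
  have hl0 : ge v 1 (z * lf a0 x - 1) := by
    have h := ge_lf v hzs a0
    rw [h00, map_one] at h
    exact h
  have hl1 : ge v 1 (z * lf a1 x) := by
    have h := ge_lf v hzs a1
    rw [h10, map_zero, sub_zero] at h
    exact h
  have hl2 : ge v 1 (z * lf a2 x) := by
    have h := ge_lf v hzs a2
    rw [h20, map_zero, sub_zero] at h
    exact h
  have hl10 : lf a1 x ≠ 0 := hNL a1 (hne a1 u1 h11)
  have hl20 : lf a2 x ≠ 0 := hNL a2 (hne a2 u2 h22)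
  by_cases hle : v.ord (lf a1 x) ≤ v.ord (lf a2 x)
  · exact corp hBRG hRAM hBAP hAFE hCRE hCEN k G d α A b hI hC hα s hs hGs hAs K htr D hD
      x v hone hP hGx hE z hz hzs u1 u2 hΔ0 (by rw [← hgdef, hgu2]; exact hj) (lf a0 x) (lf a1 x)
      (lf a2 x) hxc hl0 hl1 hl10 hl20 hle
  · have hlt := not_le.1 hle
    have h1 := v.ord_add_eq_left hl20 (fun _ => hlt)
    refine corp hBRG hRAM hBAP hAFE hCRE hCEN k G d α A b hI hC hα s hs hGs hAs K htr D hD
      x v hone hP hGx hE z hz hzs u1 (fun i => u2 i - u1 i) ?_ ?_ (lf a0 x)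
      (lf a2 x + lf a1 x) (lf a2 x) ?_ hl0 ?_ h1.1 hl20 h1.2.le
    · have e : dt s u1 (fun i => u2 i - u1 i) = dt s u1 u2 := by
        rw [dt3, dt3]
        ring
      rw [e]
      exact hΔ0
    · have e : dp (gr G s) (fun i => u2 i - u1 i) = dp g u2 - dp g u1 := by
        rw [← hgdef, dp3, dp3, dp3]
        ring
      rw [e, hgu1, hgu2, sub_zero]
      exact hj
    · intro i
      rw [map_sub]
      rw [hxc i]
      ring
    · rw [mul_add]
      exact hl2.add hl1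

/-- LBP: contact at the smooth points of the curve where `A` does not vanish -/
theorem pf_LBP (hBAP : T_BAP) : T_LBP :=
  lbp_aux Pool.Agent.H84.SM.A.a_BRG Pool.Agent.H84.SM.A.a_RAM hBAP Pool.Agent.H84.SM.A.a_AFE
    Pool.Agent.H84.SM.A.a_CRE Pool.Agent.H84.SM.A.a_CEN

end Main

end Pool.Agent.H59.ND
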