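import Pool.Agent.H84.ND.Targets1
import Pool.Agent.H60.SM.HOM
import Pool.Agent.H77.SM.PSJ

/-!
# LRC: sections which vanish on a line (MP_70ba79_ag, board `ndc_modules`)
-/

set_option autoImplicit false

namespace Pool.Agent.H59.ND

open MvPolynomial SC Pool.Agent.H27.LV Pool.Agent.H84.SM Pool.Agent.H84.ND

section proj

variable {k : Type} [Field k] {τ : Type}

/-- a linear form in the variables `inl` -/
noncomputable def lin (τ : Type) (v : Fin 3 → k) : MvPolynomial (Fin 3 ⊕ τ) k :=
  ∑ i, C (v i) * X (Sum.inl i)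

/-- the substitution `x ↦ x - L(x) m` -/
noncomputable def pj (v m : Fin 3 → k) :
    MvPolynomial (Fin 3 ⊕ τ) k →ₐ[k] MvPolynomial (Fin 3 ⊕ τ) k :=
  aeval (Sum.elim (fun i => X (Sum.inl i) - lin τ v * C (m i)) (fun j => X (Sum.inr j)))

theorem dvd_sub_pj (v m : Fin 3 → k) (f : MvPolynomial (Fin 3 ⊕ τ) k) :
    lin τ v ∣ f - pj v m f := by
  induction f using MvPolynomial.induction_on with
  | C a =>
    unfold pj
    rw [algHom_C, MvPolynomial.algebraMap_eq, sub_self]
    exact dvd_zero _
  | add p q hp hq =>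
    rw [map_add]
    have h : p + q - (pj v m p + pj v m q) = (p - pj v m p) + (q - pj v m q) := by ring
    rw [h]
    exact dvd_add hp hq
  | mul_X p i hp =>
    have hX : lin τ v ∣ X i - pj v m (X i) := by
      unfold pj
      rw [aeval_X]
      rcases i with i | i
      · rw [Sum.elim_inl]
        exact ⟨C (m i), by ring⟩
      · rw [Sum.elim_inr, sub_self]
        exact dvd_zero _
    rw [map_mul]
    have h : p * X i - pj v m p * pj v m (X i) =
        (p - pj v m p) * X i + pj v m p * (X i - pj v m (X i)) := by ring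
    rw [h]
    exact dvd_add (hp.mul_right _) (hX.mul_left _)

theorem eval_lin (v x : Fin 3 → k) (y : τ → k) :
    aeval (Sum.elim x y) (lin τ v) = dp v x := by
  unfold lin dp
  rw [map_sum]
  refine Finset.sum_congr rfl fun i _ => ?_
  rw [map_mul, aeval_X, Sum.elim_inl, algHom_C, Algebra.algebraMap_self, RingHom.id_apply]

theorem eval_pj (v m x : Fin 3 → k) (y : τ → k) (f : MvPolynomial (Fin 3 ⊕ τ) k) :
    aeval (Sum.elim x y) (pj v m f) =
      aeval (Sum.elim (fun i => x i - dp v x * m i) y) f := by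
  have h : (aeval (Sum.elim x y) : MvPolynomial (Fin 3 ⊕ τ) k →ₐ[k] k).comp (pj v m) =
      aeval (Sum.elim (fun i => x i - dp v x * m i) y) := by
    apply MvPolynomial.algHom_ext
    intro i
    rw [AlgHom.comp_apply]
    unfold pj
    rw [aeval_X, aeval_X]
    rcases i with i | i
    · rw [Sum.elim_inl, Sum.elim_inl, map_sub, map_mul, aeval_X, Sum.elim_inl, eval_lin,
        algHom_C, Algebra.algebraMap_self, RingHom.id_apply]
    · rw [Sum.elim_inr, Sum.elim_inr, aeval_X, Sum.elim_inr]
  rw [← h, AlgHom.comp_apply]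

theorem pj_lin (v m : Fin 3 → k) (hm : dp v m = 1) : pj v m (lin τ v) = 0 := by
  have h1 : (∑ i, (C (v i) : MvPolynomial (Fin 3 ⊕ τ) k) * C (m i)) = 1 := by
    have h2 := congrArg (C : k → MvPolynomial (Fin 3 ⊕ τ) k) hm
    unfold dp at h2
    rw [map_sum, C_1] at h2
    rw [← h2]
    exact Finset.sum_congr rfl fun i _ => (C_mul).symm
  have h2 : pj v m (lin τ v) = lin τ v - lin τ v * ∑ i, (C (v i) : MvPolynomial (Fin 3 ⊕ τ) k) *
      C (m i) := by
    conv_lhs => unfold lin
    rw [map_sum, Finset.mul_sum]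
    conv_rhs => enter [1]; unfold lin
    rw [← Finset.sum_sub_distrib]
    refine Finset.sum_congr rfl fun i _ => ?_
    rw [map_mul]
    unfold pj
    rw [aeval_X, Sum.elim_inl, algHom_C, MvPolynomial.algebraMap_eq]
    ring
  rw [h2, h1, mul_one, sub_self]

/-- division by a linear form which divides the other factor -/
theorem dvd_of_mul_lin [Infinite k] (v m : Fin 3 → k) (hm : dp v m = 1)
    {g w : MvPolynomial (Fin 3 ⊕ τ) k} (hg : pj v m g ≠ 0) (hv : lin τ v ≠ 0)
    (h : g ∣ lin τ v * w) : g ∣ w := by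
  obtain ⟨r, hr⟩ := h
  have h1 : pj v m r = 0 := by
    have h2 := congrArg (pj v m) hr
    rw [map_mul, map_mul, pj_lin v m hm, zero_mul] at h2
    exact (mul_eq_zero.1 h2.symm).resolve_left hg
  have h3 := dvd_sub_pj v m r
  rw [h1, sub_zero] at h3
  obtain ⟨r', rfl⟩ := h3
  refine ⟨r', ?_⟩
  have h4 : lin τ v * w = lin τ v * (g * r') := by rw [hr]; ring
  exact mul_left_cancel₀ hv h4

end proj

section homog

variable {k : Type} [Field k]

theorem aeval_smul {e i : ℕ} {c : A2 k} (h : BH e i c) (x y : Fin 3 → k) (μ : k) :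
    aeval (Sum.elim x fun j => μ * y j) c = μ ^ i * aeval (Sum.elim x y) c := by
  rw [MvPolynomial.aeval_def, MvPolynomial.aeval_def, MvPolynomial.eval₂_eq', MvPolynomial.eval₂_eq',
    Finset.mul_sum]
  refine Finset.sum_congr rfl fun m hm => ?_
  have h1 : Finsupp.weight wy m = i := h.2 (MvPolynomial.mem_support_iff.1 hm)
  have h2 : i = ∑ j : Fin 3, m (Sum.inr j) := by
    rw [← h1, Finsupp.weight_apply, Finsupp.sum_fintype _ _ (by simp), Fintype.sum_sum_type]
    simp [wy]
  rw [Fintype.prod_sum_type, Fintype.prod_sum_type, h2]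
  simp only [Sum.elim_inl, Sum.elim_inr]
  have h3 : ∏ j : Fin 3, (μ * y j) ^ m (Sum.inr j) =
      μ ^ (∑ j : Fin 3, m (Sum.inr j)) * ∏ j : Fin 3, y j ^ m (Sum.inr j) := by
    rw [← Finset.prod_pow_eq_pow_sum, ← Finset.prod_mul_distrib]
    exact Finset.prod_congr rfl fun j _ => mul_pow _ _ _
  rw [h3]
  ring

theorem map_dt {R S : Type} [CommRing R] [CommRing S] (f : R →+* S) (a b c : Fin 3 → R) :
    f (dt a b c) = dt (fun i => f (a i)) (fun i => f (b i)) (fun i => f (c i)) := by
  simp [dt, dp, cr, Fin.sum_univ_three]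

theorem cramer (a b n x : Fin 3 → k) (i : Fin 3) :
    dt a b n * x i = dt x b n * a i + dt a x n * b i + dt a b x * n i := by
  fin_cases i <;> simp [dt, dp, cr, Fin.sum_univ_three] <;> ring

theorem dp_sub_smul (v x m : Fin 3 → k) (q : k) :
    dp v (fun i => x i - q * m i) = dp v x - q * dp v m := by
  simp [dp, Fin.sum_univ_three]
  ring

theorem dt_eq_dp (a b x : Fin 3 → k) : dt a b x = dp (cr a b) x := by
  simp [dt, dp, cr, Fin.sum_univ_three]
  ring

theorem rho_eval (a b n : Fin 3 → k) (s u η : k) (c : A2 k) :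
    Polynomial.eval₂ (eval ![s, u]) η (rho a b n c) =
      aeval (Sum.elim (fun i => s * a i + u * b i) (fun i => a i + η * n i)) c := by
  have h : (Polynomial.eval₂RingHom (eval ![s, u]) η).comp (rho a b n : A2 k →+* _) =
      ((aeval (Sum.elim (fun i => s * a i + u * b i) (fun i => a i + η * n i)) :
        A2 k →ₐ[k] k) : A2 k →+* k) := by
    apply MvPolynomial.ringHom_ext
    · intro r
      simp [rho]
    · intro i
      rcases i with i | i
      · simp [rho]
        ring
      · simp [rho]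
        ring
  have h1 := DFunLike.congr_fun h c
  simpa using h1

/-- the values at the points of the line -/
theorem point_vanish [CharZero k] {a b n : Fin 3 → k} {e i : ℕ} {c : A2 k} (hΔ : dt a b n ≠ 0)
    (hdv : dv c = 0) (hBH : BH e i c) (h0 : rho a b n c = 0) (x y : Fin 3 → k)
    (hx : dt a b x = 0) (hu : dt a x n ≠ 0)
    (hm : dt y b n * dt a x n - dt a y n * dt x b n ≠ 0) : aeval (Sum.elim x y) c = 0 := by
  have hx' : ∀ i, x i = dt x b n / dt a b n * a i + dt a x n / dt a b n * b i := by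
    intro i
    have h1 := cramer a b n x i
    rw [hx, zero_mul, add_zero] at h1
    field_simp
    linear_combination h1
  obtain ⟨μ, hμ⟩ : ∃ μ, μ = (dt y b n * dt a x n - dt a y n * dt x b n) /
    (dt a b n * dt a x n) := ⟨_, rfl⟩
  have hμ0 : μ ≠ 0 := by
    rw [hμ]
    exact div_ne_zero hm (mul_ne_zero hΔ hu)
  obtain ⟨η, hη⟩ : ∃ η, η = dt a b y / dt a b n / μ := ⟨_, rfl⟩
  obtain ⟨lam, hlam⟩ : ∃ lam, lam = dt a y n / dt a x n := ⟨_, rfl⟩
  have hy : ∀ i, y i = μ * (a i + η * n i) + lam * x i := by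
    intro i
    have h1 := cramer a b n y i
    have h2 : μ * η = dt a b y / dt a b n := by
      rw [hη]
      field_simp
    have h3 : μ * (a i + η * n i) + lam * x i = μ * a i + dt a b y / dt a b n * n i +
        lam * x i := by
      rw [← h2]
      ring
    rw [h3, hμ, hlam, hx' i]
    field_simp
    linear_combination (dt a x n) * h1
  have hy' : y = fun i => (fun j => μ * (a j + η * n j)) i + lam * x i := funext hy
  rw [hy', Pool.Agent.H77.SM.inv_shift x (fun j => μ * (a j + η * n j)) lam c hdv,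
    aeval_smul hBH x (fun j => a j + η * n j) μ]
  have h4 := rho_eval a b n (dt x b n / dt a b n) (dt a x n / dt a b n) η c
  rw [h0, Polynomial.eval₂_zero] at h4
  have h5 : x = fun i => dt x b n / dt a b n * a i + dt a x n / dt a b n * b i := funext hx'
  rw [← h5] at h4
  rw [← h4, mul_zero]

end homog

theorem pf_LRC : T_LRC := by
  intro k _ _ _ G d hd hG hsq a b n hT hΔ i M t c hc hsec h0
  obtain ⟨hinv, ⟨e, he, hBHN⟩, hdvd⟩ := hsec
  have hdv : dv c = 0 := by
    have h1 := hinv 0
    rwa [Polynomial.coeff_C_zero] at h1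
  have hBH : BH e i c := by
    have h1 := (hBHN 0).1 (by omega)
    rwa [Polynomial.coeff_C_zero] at h1
  obtain ⟨v, hv⟩ : ∃ v : Fin 3 → k, v = cr a b := ⟨_, rfl⟩
  obtain ⟨m, hm⟩ : ∃ m : Fin 3 → k, m = fun i => (dt a b n)⁻¹ * n i := ⟨_, rfl⟩
  have hvm : dp v m = 1 := by
    have h1 : dp v m = (dt a b n)⁻¹ * dp (cr a b) n := by
      rw [hv, hm]
      unfold dp
      rw [Finset.mul_sum]
      exact Finset.sum_congr rfl fun i _ => by ring
    rw [h1, ← dt_eq_dp, inv_mul_cancel₀ hΔ]
  have hlin0 : ∀ τ : Type, lin τ v ≠ 0 := by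
    intro τ h1
    have h2 := congrArg (aeval (Sum.elim m (fun _ : τ => (0 : k)))) h1
    rw [eval_lin, hvm, map_zero] at h2
    exact one_ne_zero h2
  have hva : dp v a = 0 := by
    rw [hv]
    simp [dp, cr, Fin.sum_univ_three]
    ring
  have hvb : dp v b = 0 := by
    rw [hv]
    simp [dp, cr, Fin.sum_univ_three]
    ring
  -- the polynomial vanishes on the plane
  have hpj : pj v m c = 0 := by
    obtain ⟨Uf, hUf⟩ : ∃ Uf : A2 k, Uf = dt (fun i => C (a i)) xa (fun i => C (n i)) := ⟨_, rfl⟩
    obtain ⟨Mf, hMf⟩ : ∃ Mf : A2 k, Mf = dt ya (fun i => C (b i)) (fun i => C (n i)) *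
      dt (fun i => C (a i)) xa (fun i => C (n i)) -
      dt (fun i => C (a i)) ya (fun i => C (n i)) *
        dt xa (fun i => C (b i)) (fun i => C (n i)) := ⟨_, rfl⟩
    have eU : ∀ x y : Fin 3 → k, aeval (Sum.elim x y) Uf = dt a x n := by
      intro x y
      rw [hUf]
      have h1 := map_dt ((aeval (Sum.elim x y) : A2 k →ₐ[k] k) : A2 k →+* k)
        (fun i => C (a i)) xa (fun i => C (n i))
      simpa [xa] using h1
    have eM : ∀ x y : Fin 3 → k, aeval (Sum.elim x y) Mf =
        dt y b n * dt a x n - dt a y n * dt x b n := by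
      intro x y
      rw [hMf]
      have h1 := map_dt ((aeval (Sum.elim x y) : A2 k →ₐ[k] k) : A2 k →+* k)
        (fun i => C (a i)) xa (fun i => C (n i))
      have h2 := map_dt ((aeval (Sum.elim x y) : A2 k →ₐ[k] k) : A2 k →+* k)
        ya (fun i => C (b i)) (fun i => C (n i))
      have h3 := map_dt ((aeval (Sum.elim x y) : A2 k →ₐ[k] k) : A2 k →+* k)
        (fun i => C (a i)) ya (fun i => C (n i))
      have h4 := map_dt ((aeval (Sum.elim x y) : A2 k →ₐ[k] k) : A2 k →+* k)
        xa (fun i => C (b i)) (fun i => C (n i))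
      rw [map_sub, map_mul, map_mul]
      simp only [RingHom.coe_coe] at h1 h2 h3 h4
      rw [h1, h2, h3, h4]
      simp [xa, ya]
    have hF : pj v m (c * Uf * Mf) = 0 := by
      apply MvPolynomial.funext
      intro z
      rw [map_zero]
      have hz : z = Sum.elim (fun i => z (Sum.inl i)) (fun i => z (Sum.inr i)) := by
        funext i
        rcases i with i | i <;> rfl
      have h1 : eval z (pj v m (c * Uf * Mf)) = aeval z (pj v m (c * Uf * Mf)) :=
        (DFunLike.congr_fun (MvPolynomial.coe_aeval_eq_eval z) (pj v m (c * Uf * Mf))).symm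
      rw [h1, hz, eval_pj, map_mul, map_mul, eU, eM]
      by_cases hu : dt a (fun i => z (Sum.inl i) - dp v (fun i => z (Sum.inl i)) * m i) n = 0
      · rw [hu]
        ring
      · by_cases hmm : dt (fun i => z (Sum.inr i)) b n *
          dt a (fun i => z (Sum.inl i) - dp v (fun i => z (Sum.inl i)) * m i) n -
          dt a (fun i => z (Sum.inr i)) n *
            dt (fun i => z (Sum.inl i) - dp v (fun i => z (Sum.inl i)) * m i) b n = 0
        · rw [hmm]
          ring
        · rw [point_vanish hΔ hdv hBH h0 _ _ ?_ hu hmm]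
          · ring
          · rw [dt_eq_dp, ← hv]
            have h2 : dp v (fun i => z (Sum.inl i) - dp v (fun i => z (Sum.inl i)) * m i) =
                dp v (fun i => z (Sum.inl i)) - dp v (fun i => z (Sum.inl i)) * dp v m :=
              dp_sub_smul v _ m _
            rw [h2, hvm]
            ring
    rw [map_mul, map_mul] at hF
    have hU0 : pj v m Uf ≠ 0 := by
      intro h1
      have h2 := congrArg (aeval (Sum.elim b a)) h1
      rw [eval_pj, eU, map_zero, hvb] at h2
      simp only [zero_mul, sub_zero] at h2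
      exact hΔ h2
    have hM0 : pj v m Mf ≠ 0 := by
      intro h1
      have h2 := congrArg (aeval (Sum.elim b a)) h1
      rw [eval_pj, eM, map_zero, hvb] at h2
      simp only [zero_mul, sub_zero] at h2
      have h3 : dt a a n = 0 := by
        simp [dt, dp, cr, Fin.sum_univ_three]
        ring
      rw [h3, zero_mul, sub_zero] at h2
      exact hΔ (mul_self_eq_zero.1 h2)
    rcases mul_eq_zero.1 hF with h1 | h1
    · rcases mul_eq_zero.1 h1 with h2 | h2
      · exact h2
      · exact absurd h2 hU0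
    · exact absurd h1 hM0
  have hLc := dvd_sub_pj v m c
  rw [hpj, sub_zero] at hLc
  obtain ⟨c', rfl⟩ := hLc
  refine ⟨c', by rw [← hv]; rfl, ?_⟩
  have hc' : c' ≠ 0 := fun h => hc (by rw [h, mul_zero])
  -- invariance
  have hdvL : dv (lin (Fin 3) v) = 0 := by
    unfold lin
    rw [map_sum]
    refine Finset.sum_eq_zero fun i _ => ?_
    rw [← MvPolynomial.smul_eq_C_mul, Derivation.map_smul]
    unfold dv
    rw [mkDerivation_X, Sum.elim_inl, smul_zero]
  have hdv' : dv c' = 0 := by
    rw [Derivation.leibniz, hdvL, smul_zero, add_zero, smul_eq_mul] at hdv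
    exact (mul_eq_zero.1 hdv).resolve_left (hlin0 _)
  -- degrees
  have hNN : (Polynomial.C (lin (Fin 3) v * c') : R2 k) =
      Polynomial.C (lin (Fin 3) v) * Polynomial.C c' := Polynomial.C_mul
  have hN0 : (Polynomial.C (lin (Fin 3) v) * Polynomial.C c' : R2 k) ≠ 0 := by
    rw [← hNN]
    exact fun h => hc (Polynomial.C_eq_zero.1 h)
  rw [hNN] at hBHN
  obtain ⟨e1, n1, e2, n2, he12, hn12, hB1, hB2⟩ :=
    Pool.Agent.H60.SM.pf_HOM k e i _ _ hN0 hBHN
  have hB1' : BH e1 n1 (lin (Fin 3) v) := by
    have h1 := (hB1 0).1 (by omega)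
    rwa [Polynomial.coeff_C_zero] at h1
  have hwx : IsWeightedHomogeneous wx (lin (Fin 3) v) 1 := by
    unfold lin
    refine MvPolynomial.IsWeightedHomogeneous.sum _ _ _ fun i _ => ?_
    have h1 := (isWeightedHomogeneous_C wx (v i)).mul
      (isWeightedHomogeneous_X (R := k) (w := wx) (Sum.inl i))
    rwa [zero_add] at h1
  have hwy : IsWeightedHomogeneous wy (lin (Fin 3) v) 0 := by
    unfold lin
    refine MvPolynomial.IsWeightedHomogeneous.sum _ _ _ fun i _ => ?_
    have h1 := (isWeightedHomogeneous_C wy (v i)).mul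
      (isWeightedHomogeneous_X (R := k) (w := wy) (Sum.inl i))
    rwa [zero_add] at h1
  have he1 : e1 = 1 := hB1'.1.inj_right (hlin0 _) hwx
  have hn1 : n1 = 0 := hB1'.2.inj_right (hlin0 _) hwy
  subst he1 hn1
  have hn2 : n2 = i := by omega
  subst hn2
  refine ⟨?_, ⟨e2, by rw [← he12] at he; push_cast at he ⊢; linarith, hB2⟩, ?_⟩
  · intro j
    by_cases hj : j = 0
    · subst hj
      rw [Polynomial.coeff_C_zero]
      exact hdv'
    · rw [Polynomial.coeff_C_of_ne_zero hj, map_zero]
  · intro l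
    have hPsi : ∀ f : A2 k, Psi G d l (Polynomial.C f) =
        Polynomial.C (aeval (Sum.elim xb (chy G l)) f) := by
      intro f
      unfold Psi
      rw [Polynomial.coe_eval₂RingHom, Polynomial.eval₂_C]
      rfl
    have h1 := hdvd l
    rw [hPsi] at h1 ⊢
    unfold gp at h1 ⊢
    rw [← map_pow] at h1 ⊢
    have h2 := (Polynomial.C_dvd_iff_dvd_coeff _ _).1 h1 0
    rw [Polynomial.coeff_C_zero, map_mul] at h2
    have h3 : aeval (Sum.elim xb (chy G l)) (lin (Fin 3) v) = lin (Fin 2) v := by
      unfold lin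
      rw [map_sum]
      refine Finset.sum_congr rfl fun i _ => ?_
      rw [map_mul, aeval_X, Sum.elim_inl, algHom_C]
      rfl
    rw [h3] at h2
    refine map_dvd Polynomial.C (dvd_of_mul_lin v m hvm ?_ (hlin0 _) h2)
    intro h4
    have h5 := congrArg (aeval (Sum.elim a (fun _ : Fin 2 => (0 : k)))) h4
    rw [eval_pj, map_zero, hva] at h5
    simp only [zero_mul, sub_zero] at h5
    rw [map_pow] at h5
    have h6 : aeval (Sum.elim a (fun _ : Fin 2 => (0 : k))) (aeval xb G : B2 k) = eval a G := by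
      have h7 : (aeval (Sum.elim a (fun _ : Fin 2 => (0 : k))) : B2 k →ₐ[k] k).comp
          (aeval xb : MvPolynomial (Fin 3) k →ₐ[k] B2 k) = aeval a := by
        apply MvPolynomial.algHom_ext
        intro i
        rw [AlgHom.comp_apply, aeval_X, aeval_X]
        unfold xb
        rw [aeval_X, Sum.elim_inl]
      have h8 := DFunLike.congr_fun h7 G
      rw [AlgHom.comp_apply] at h8
      rw [h8]
      exact DFunLike.congr_fun (MvPolynomial.coe_aeval_eq_eval a) G
    rw [h6] at h5
    exact pow_ne_zero M hT.off h5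

end Pool.Agent.H59.ND
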